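import Pool.Agent.Y981.QB.Stm2

/-!
# A sum of `exp (K log² m - s m)`
-/

set_option autoImplicit false

namespace Pool.Agent.Y98.QB

open Pool.Agent.Y981.QB

/-- the square of the logarithm is smaller than the square root -/
theorem log_sq {w : ℝ} (hw : 1 ≤ w) : Real.log w ^ 2 ≤ 16 * Real.sqrt w := by
  have h0 : 0 ≤ Real.log w := Real.log_nonneg hw
  have h1 : Real.log (Real.sqrt (Real.sqrt w)) = Real.log w / 4 := by
    rw [Real.log_sqrt (Real.sqrt_nonneg _), Real.log_sqrt (by linarith)]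
    ring
  have h2 : Real.log (Real.sqrt (Real.sqrt w)) ≤ Real.sqrt (Real.sqrt w) :=
    Real.log_le_self (Real.sqrt_nonneg _)
  have h3 : Real.log w ≤ 4 * Real.sqrt (Real.sqrt w) := by
    rw [h1] at h2
    linarith
  have h4 : Real.sqrt (Real.sqrt w) ^ 2 = Real.sqrt w := Real.sq_sqrt (Real.sqrt_nonneg _)
  calc Real.log w ^ 2 ≤ (4 * Real.sqrt (Real.sqrt w)) ^ 2 := pow_le_pow_left₀ h0 h3 2
    _ = 16 * Real.sqrt w := by rw [mul_pow, h4]; norm_num

theorem log_sq_le {K u : ℝ} (hu : 0 ≤ u) (hK : 0 ≤ K) :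
    2 * K * Real.log (u + 2) ^ 2 ≤ u / 2 + (1 + 512 * K ^ 2) := by
  have h1 := log_sq (w := u + 2) (by linarith)
  have h2 : Real.sqrt (u + 2) ^ 2 = u + 2 := Real.sq_sqrt (by linarith)
  have h3 : 2 * K * Real.log (u + 2) ^ 2 ≤ 2 * K * (16 * Real.sqrt (u + 2)) :=
    mul_le_mul_of_nonneg_left h1 (by positivity)
  nlinarith [sq_nonneg (Real.sqrt (u + 2) - 32 * K)]

theorem geom_le {s : ℝ} (h0 : 0 < s) (h1 : s ≤ 1) (n : ℕ) :
    ∑ m ∈ Finset.range (n + 1), Real.exp (-(s / 2) * m) ≤ 4 / s := by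
  set r : ℝ := Real.exp (-(s / 2)) with hr
  have hr0 : 0 < r := Real.exp_pos _
  have hr1 : r ≤ 1 - s / 4 := by
    have h2 : 1 + s / 2 ≤ Real.exp (s / 2) := by
      have := Real.add_one_le_exp (s / 2)
      linarith
    have h3 : r * Real.exp (s / 2) = 1 := by
      rw [hr, ← Real.exp_add]
      simp
    by_contra h4
    push Not at h4
    have h5 : 1 < (1 + s / 2) * r := by nlinarith
    have h6 : (1 + s / 2) * r ≤ Real.exp (s / 2) * r := mul_le_mul_of_nonneg_right h2 hr0.le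
    nlinarith
  have hsum : ∀ k : ℕ, (s / 4) * ∑ m ∈ Finset.range k, r ^ m ≤ 1 - r ^ k := by
    intro k
    have h2 := mul_neg_geom_sum r k
    have h3 : 0 ≤ ∑ m ∈ Finset.range k, r ^ m := Finset.sum_nonneg fun m _ => by positivity
    nlinarith
  have h2 : ∑ m ∈ Finset.range (n + 1), Real.exp (-(s / 2) * m) =
      ∑ m ∈ Finset.range (n + 1), r ^ m := by
    refine Finset.sum_congr rfl fun m _ => ?_
    rw [hr, ← Real.exp_nat_mul]
    congr 1
    ring
  rw [h2, le_div_iff₀ h0]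
  have h3 := hsum (n + 1)
  have h4 : 0 < r ^ (n + 1) := by positivity
  linarith

theorem sum : S_SUM := by
  intro K hK
  refine ⟨2 * K + (1 + 512 * K ^ 2) + 2, by positivity, ?_⟩
  intro s hs0 hs1 n
  set L : ℝ := 1 + Real.log (1 / s) with hL
  have hlog : 0 ≤ Real.log (1 / s) := Real.log_nonneg (by rw [le_div_iff₀ hs0]; linarith)
  have hL1 : 1 ≤ L := by rw [hL]; linarith
  have hterm : ∀ m ∈ Finset.range (n + 1),
      Real.exp (K * Real.log (m + 2) ^ 2) * Real.exp (-s * m) ≤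
        Real.exp (2 * K * L ^ 2 + (1 + 512 * K ^ 2)) * Real.exp (-(s / 2) * m) := by
    intro m _
    rw [← Real.exp_add, ← Real.exp_add]
    refine Real.exp_le_exp.2 ?_
    have hm : (0 : ℝ) ≤ m := Nat.cast_nonneg m
    have hsm : 0 ≤ s * m := by positivity
    have h1 : Real.log ((m : ℝ) + 2) ≤ Real.log (1 / s) + Real.log (s * m + 2) := by
      rw [← Real.log_mul (by positivity) (by positivity)]
      refine Real.log_le_log (by positivity) ?_
      have h2 : 1 / s * (s * m + 2) = m + 2 * (1 / s) := by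
        field_simp
      rw [h2]
      have h3 : 1 ≤ 1 / s := by rw [le_div_iff₀ hs0]; linarith
      linarith
    have h0 : 0 ≤ Real.log ((m : ℝ) + 2) := Real.log_nonneg (by linarith)
    have h2 : 0 ≤ Real.log (s * m + 2) := Real.log_nonneg (by linarith)
    have h3 : Real.log ((m : ℝ) + 2) ≤ L + Real.log (s * m + 2) := by rw [hL]; linarith
    have h4 : Real.log ((m : ℝ) + 2) ^ 2 ≤ 2 * L ^ 2 + 2 * Real.log (s * m + 2) ^ 2 := by
      have h5 := pow_le_pow_left₀ h0 h3 2
      nlinarith [sq_nonneg (L - Real.log (s * m + 2))]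
    have h5 := log_sq_le hsm hK
    have h6 : K * Real.log ((m : ℝ) + 2) ^ 2 ≤ K * (2 * L ^ 2 + 2 * Real.log (s * m + 2) ^ 2) :=
      mul_le_mul_of_nonneg_left h4 hK
    nlinarith
  refine (Finset.sum_le_sum hterm).trans ?_
  rw [← Finset.mul_sum]
  have hg := geom_le hs0 hs1 n
  have h4 : 4 / s ≤ Real.exp (2 * L ^ 2) := by
    have h5 : 4 / s = 4 * Real.exp (Real.log (1 / s)) := by
      rw [Real.exp_log (by positivity)]
      ring
    have h6 : (2 : ℝ) ≤ Real.exp 1 := by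
      have := Real.add_one_le_exp (1 : ℝ)
      linarith
    have h7 : (4 : ℝ) ≤ Real.exp 2 := by
      have h8 : Real.exp 2 = Real.exp 1 * Real.exp 1 := by
        rw [← Real.exp_add]; norm_num
      rw [h8]
      nlinarith
    rw [h5]
    calc 4 * Real.exp (Real.log (1 / s)) ≤ Real.exp 2 * Real.exp (Real.log (1 / s)) :=
          mul_le_mul_of_nonneg_right h7 (Real.exp_pos _).le
      _ = Real.exp (2 + Real.log (1 / s)) := (Real.exp_add _ _).symm
      _ ≤ Real.exp (2 * L ^ 2) := by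
          refine Real.exp_le_exp.2 ?_
          have h8 : Real.log (1 / s) = L - 1 := by rw [hL]; ring
          rw [h8]
          nlinarith
  calc Real.exp (2 * K * L ^ 2 + (1 + 512 * K ^ 2)) *
        ∑ m ∈ Finset.range (n + 1), Real.exp (-(s / 2) * m)
      ≤ Real.exp (2 * K * L ^ 2 + (1 + 512 * K ^ 2)) * Real.exp (2 * L ^ 2) :=
        mul_le_mul_of_nonneg_left (hg.trans h4) (Real.exp_pos _).le
    _ = Real.exp (2 * K * L ^ 2 + (1 + 512 * K ^ 2) + 2 * L ^ 2) := (Real.exp_add _ _).symm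
    _ ≤ Real.exp ((2 * K + (1 + 512 * K ^ 2) + 2) * L ^ 2) := by
        refine Real.exp_le_exp.2 ?_
        have h8 : 1 ≤ L ^ 2 := by nlinarith
        nlinarith [sq_nonneg K]

end Pool.Agent.Y98.QB
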